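import Pool.Agent.W763.PB.Stm

/-! PB-FIN (MP_c88e0f_an): final assembly. -/

set_option autoImplicit false
open MeasureTheory Filter Topology
open scoped InnerProductSpace BoundedContinuousFunction

namespace Pool.Agent.W465.PB

open Pool.Agent.W763.PB

theorem fin : S_FIN := by
  intro hCORE hF1 hF2 hF4 hFa hFb hFc hFd hall
  choose H i1 i2 i3 U D h1 h2 h3 h4 using fun n : ℕ => hCORE (n : ℝ)
  obtain ⟨L, hL⟩ := hF1
  choose X hX1 hX2 hX3 using fun n => hF2 L hL (H n) (U n) (D n) (h1 n) (h2 n)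
  obtain ⟨T, hT1, hT2, hT3, hT4⟩ := hFa H U D h1 h2
  obtain ⟨W, hW1, hW2, hW3⟩ := hFb H U h4
  obtain ⟨Y, hY1, hY2, hY3⟩ := hFc L hL H U D X h1 h2 hX1 hX3 T hT1
  have hcomp : Y.comp T = W.comp Y := by
    ext x N
    change (Y (T x) : ∀ N, H N) N = (W (Y x) : ∀ N, H N) N
    rw [hY1, hT1, hX2, hW1, hY1]
  exact hFd H U D h3 T W hT1 hW2
    (hall (lp H 2) T ⟨5, hT2⟩ hT3 hT4 L hL.pos hL.one hL.sh (lp H 2) W Y hW2 hY2 hcomp hY3
      (fun y μ hμ hs hm => hF4 (lp H 2) W hW2 hW3 y μ hμ hs hm))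

end Pool.Agent.W465.PB
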